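import Pool.Agent.Lib.MP_b5021c_nt.IfaceE6Cr
import Pool.Agent.Lib.MP_b5021c_nt.K.H31.Clo

/-! Board b5, stage 3, chapter E6C, row E6C_BIG (helper42): the factors of a closed element of
class `V(N)`, facet ports.  Adapted from `B/H31/Cl4.lean`. -/

namespace Pool.Agent.B5.H42.Big

open scoped LaurentPolynomial
open Pool.Agent.B5.Clo

/-- Row E6C_BIG. -/
theorem bigr (g1p : G1pS) (lsd : LsdS) (g4 : G4S) (e1 : E1S) (mv : MVS) (mm : MmulS)
    (clp : ClpS) : Big6S := by
  classical
  intro O _ _ _ _ P L _ _ _ _ _ phi D S i0 eta h c n G N B hFP hF hN hB hB1 hBd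
  have hnp := (clp O P L phi D S i0 eta h c n G hFP hF).2
  have hg1 := g1p O P L phi D S i0 eta h c n G hF (fun i b _ hp _ => absurd hp (hnp i).1)
  have hg3 := lsd O P L phi D S i0 eta h c n G hF
  have hg4 := g4 O P L phi D S i0 eta h c n G hF
  have hg1' : (rk (supp (cl (co phi i0) S h eta D)) : ℝ) ≤
      ∑ i ∈ big G, (rk (supp (G i)) : ℝ) + ((snp phi S i0 G).card : ℝ) := by
    exact_mod_cast hg1
  have hMN : M (D.coeff 0 + (eta : RO O) * D.coeff S) = N := ((mv O).1 N _ hN).2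
  rw [hMN] at hg3
  rw [hF.v00] at hN
  obtain ⟨Nc, Np, h1, h2, hNN⟩ := (e1 O).1 N _ _ hN
  have hMc : M c = Nc := ((mv O).1 Nc _ h1).2
  obtain ⟨h3, h4⟩ := classV_prod e1 mv mm (fun i => (G i).coeff 0) Finset.univ Np h2
  have hone : ∀ i, 1 ≤ M ((G i).coeff 0) := fun i => (h3 i (Finset.mem_univ i)).1
  have hbig : Np = ∏ i ∈ big G, M ((G i).coeff 0) := by
    rw [h4]
    symm
    apply Finset.prod_subset (Finset.subset_univ _)
    intro i _ hi
    have h5 : ¬ 1 < M ((G i).coeff 0) := by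
      intro h6
      apply hi
      unfold big
      rw [Finset.mem_filter]
      exact ⟨Finset.mem_univ _, h6⟩
    exact le_antisymm (not_lt.1 h5) (hone i)
  have hsub : ∀ i, M ((G i).coeff 0) ≤ N := by
    intro i
    have h5 : M ((G i).coeff 0) ≤ ∏ i, M ((G i).coeff 0) := by
      rw [← Finset.mul_prod_erase Finset.univ _ (Finset.mem_univ i)]
      refine le_mul_of_one_le_right (by linarith [hone i]) ?_
      exact one_le_prod (fun i => M ((G i).coeff 0)) _ (fun i _ => hone i)
    have h6 : 1 ≤ Nc := h1.1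
    rw [← h4] at h5
    rw [hNN]
    nlinarith [hone i]
  have hprod : ∏ k : Fin (big G).card, M ((G ((big G).equivFin.symm k)).coeff 0) =
      ∏ i ∈ big G, M ((G i).coeff 0) := by
    rw [← Finset.prod_coe_sort (big G)]
    exact (big G).equivFin.symm.prod_comp fun i : (big G) => M ((G i).coeff 0)
  refine ⟨by rw [hMc]; exact h1, fun k => M ((G ((big G).equivFin.symm k)).coeff 0),
    ?_, ?_, ?_, ?_⟩
  · intro k
    have hk := ((big G).equivFin.symm k).2
    unfold big at hk
    rw [Finset.mem_filter] at hk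
    exact ⟨hk.2, _, h3 _ (Finset.mem_univ _)⟩
  · rw [hprod, ← hbig, hMc]
    exact hNN.symm
  · rw [hprod]
    exact hg3
  · have h5 : ∑ k : Fin (big G).card, B (M ((G ((big G).equivFin.symm k)).coeff 0)) =
        ∑ i ∈ big G, B (M ((G i).coeff 0)) := by
      rw [← Finset.sum_coe_sort (big G)]
      exact (big G).equivFin.symm.sum_comp fun i : (big G) => B (M ((G i).coeff 0))
    rw [h5]
    have h6 : ∑ i ∈ big G, (rk (supp (G i)) : ℝ) ≤ ∑ i ∈ big G, B (M ((G i).coeff 0)) := by
      refine Finset.sum_le_sum fun i _ => ?_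
      refine (hg4 i).1 (M ((G i).coeff 0)) _ (h3 i (Finset.mem_univ i)) (hB1 _) ?_
      intro N' hN' P' L' _ _ _ _ _ phi' D' hD' hcl
      exact (hBd N' (hN'.trans (hsub i)) P' L' phi' D' hD' hcl).trans (hB hN')
    linarith

end Pool.Agent.B5.H42.Big
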