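import Pool.Agent.Lib.MP_b5021c_nt.IfaceE5T

/-!
# MP_b5021c_nt, board b5, row E5_T2E: the zero of `q + κ z f`
-/

namespace Pool.Agent.B5.H42

open scoped LaurentPolynomial Topology
open Polynomial Pool.Agent.B5
open Pool.Agent.MP_b5021c_nt (Eis nz ZcoS)

theorem t2e_num {T T' κ c h : ℂ} {θ : ℝ} (hT : ‖T‖ = θ) (hθ : 200 ≤ θ) (hT' : 12 ≤ ‖T'‖)
    (hκ : ‖κ‖ ≤ 2) (hc : ‖c‖ ≤ 2) (hh : ‖h‖ ≤ 3)
    (heq : (T - T') * (T' + κ * h) = κ * c * T') :
    θ - 5 ≤ ‖T'‖ ∧ ‖T'‖ ≤ θ - (κ * (c * (starRingEnd ℂ) T)).re / θ + 35 / θ := by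
  have hθ0 : 0 < θ := by linarith
  have hκh : ‖κ * h‖ ≤ 6 := by
    rw [norm_mul]
    nlinarith [norm_nonneg κ, norm_nonneg h]
  have hκc : ‖κ * c‖ ≤ 4 := by
    rw [norm_mul]
    nlinarith [norm_nonneg κ, norm_nonneg c]
  have h1 : ‖T'‖ - 6 ≤ ‖T' + κ * h‖ := by
    have h2 : ‖T'‖ ≤ ‖T' + κ * h‖ + ‖κ * h‖ := by
      have h3 := norm_sub_le (T' + κ * h) (κ * h)
      rwa [add_sub_cancel_right] at h3
    linarith
  have h2 : ‖T - T'‖ * (‖T'‖ - 6) ≤ 4 * ‖T'‖ := by
    have h3 : ‖T - T'‖ * ‖T' + κ * h‖ = ‖κ * c‖ * ‖T'‖ := by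
      rw [← norm_mul, heq, norm_mul]
    have h4 : ‖T - T'‖ * (‖T'‖ - 6) ≤ ‖T - T'‖ * ‖T' + κ * h‖ :=
      mul_le_mul_of_nonneg_left h1 (norm_nonneg _)
    have h5 : ‖κ * c‖ * ‖T'‖ ≤ 4 * ‖T'‖ := mul_le_mul_of_nonneg_right hκc (norm_nonneg _)
    linarith
  have h3 : θ - ‖T - T'‖ ≤ ‖T'‖ := by
    have h4 := norm_sub_le T (T - T')
    rw [sub_sub_cancel] at h4
    have h5 : ‖T‖ ≤ ‖T - T'‖ + ‖T'‖ := by
      have h6 := norm_add_le (T - T') T'
      rwa [sub_add_cancel] at h6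
    linarith
  have h4 : ‖T - T'‖ ≤ 8 := by
    by_contra h
    push Not at h
    nlinarith
  have h5 : ‖T - T'‖ ≤ 5 := by
    by_contra h
    push Not at h
    nlinarith
  have h6 : θ - 5 ≤ ‖T'‖ := by linarith
  refine ⟨h6, ?_⟩
  have h7 : θ - 11 ≤ ‖T' + κ * h‖ := by linarith
  have h8 : T' + κ * h ≠ 0 := by
    intro h0
    rw [h0, norm_zero] at h7
    linarith
  have h9 : T' = (T - κ * c) + (κ * c) * (κ * h) / (T' + κ * h) := by
    have h10 : T - T' = κ * c * T' / (T' + κ * h) := by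
      rw [eq_div_iff h8, heq]
    have h11 : κ * c * T' / (T' + κ * h) = κ * c - (κ * c) * (κ * h) / (T' + κ * h) := by
      field_simp
      ring
    rw [h11] at h10
    linear_combination -h10
  have h10 : ‖(κ * c) * (κ * h) / (T' + κ * h)‖ ≤ 26 / θ := by
    rw [norm_div, norm_mul, div_le_div_iff₀ (norm_pos_iff.2 h8) hθ0]
    have h11 : ‖κ * c‖ * ‖κ * h‖ ≤ 24 := by
      nlinarith [norm_nonneg (κ * c), norm_nonneg (κ * h)]
    nlinarith
  set x : ℝ := (κ * (c * (starRingEnd ℂ) T)).re / θ with hx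
  have h11 : (κ * (c * (starRingEnd ℂ) T)).re = x * θ := by
    rw [hx]
    field_simp
  have h12 : |x| ≤ 4 := by
    rw [hx, abs_div, abs_of_pos hθ0, div_le_iff₀ hθ0]
    refine (Complex.abs_re_le_norm _).trans ?_
    rw [← mul_assoc, norm_mul, Complex.norm_conj, hT]
    exact mul_le_mul_of_nonneg_right hκc hθ0.le
  have h13 : ‖T - κ * c‖ ^ 2 ≤ θ ^ 2 - 2 * (x * θ) + 16 := by
    rw [← Complex.normSq_eq_norm_sq, Complex.normSq_sub, Complex.normSq_eq_norm_sq,
      Complex.normSq_eq_norm_sq, hT]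
    have h14 : (T * (starRingEnd ℂ) (κ * c)).re = x * θ := by
      rw [← h11, ← Complex.conj_re (T * (starRingEnd ℂ) (κ * c)), map_mul, Complex.conj_conj]
      congr 1
      ring
    rw [h14]
    nlinarith [norm_nonneg (κ * c)]
  have h14 : ‖T - κ * c‖ ≤ θ - x + 17 / 2 / θ := by
    have h15 : 0 ≤ θ - x + 17 / 2 / θ := by
      have := abs_le.1 h12
      have : 0 < 17 / 2 / θ := by positivity
      linarith
    refine abs_le_of_sq_le_sq' (a := ‖T - κ * c‖) ?_ h15 |>.2
    refine h13.trans ?_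
    have h16 : (θ - x + 17 / 2 / θ) ^ 2 = θ ^ 2 - 2 * (x * θ) + x ^ 2 + 17 * ((θ - x) / θ) +
        (17 / 2 / θ) ^ 2 := by
      field_simp
      ring
    rw [h16]
    have h17 : 98 / 100 ≤ (θ - x) / θ := by
      rw [le_div_iff₀ hθ0]
      have := abs_le.1 h12
      linarith
    nlinarith [sq_nonneg x, sq_nonneg (17 / 2 / θ)]
  have h15 : ‖T'‖ ≤ ‖T - κ * c‖ + ‖(κ * c) * (κ * h) / (T' + κ * h)‖ := by
    conv_lhs => rw [h9]
    exact norm_add_le _ _
  have h16 : (17 / 2 / θ + 26 / θ : ℝ) ≤ 35 / θ := by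
    rw [← add_div]
    exact div_le_div_of_nonneg_right (by norm_num) hθ0.le
  linarith

/-- (T2E) -/
theorem t2e (hZ : ZcoS) : T2eS := by
  intro θ q f s r T c κ hθ hd hc hκ hnz
  have hT : ‖T‖ = θ := hd.nT
  have hθ0 : 0 < θ := by linarith
  have hT0 : T ≠ 0 := by
    intro h
    rw [h, norm_zero] at hT
    linarith
  set qc : ℂ[X] := q.map Eis.emb with hqc
  set fc : ℂ[X] := f.map Eis.emb with hfc
  set p : ℂ[X] := qc + C κ * X * fc with hp
  have hqe : ∀ z : ℂ, qc.eval z = (1 - T * z) * s.eval z := by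
    intro z
    rw [hqc, hd.qs]
    simp
  have hfe : ∀ z : ℂ, fc.eval z = c * s.eval z + (1 - T * z) * r.eval z := by
    intro z
    rw [hfc, hd.fs]
    simp
  have hpe : ∀ z : ℂ, p.eval z = qc.eval z + κ * z * fc.eval z := by
    intro z
    rw [hp]
    simp
  have hp0 : p.eval 0 ≠ 0 := by
    rw [hpe, hqe]
    simpa using hd.s0 0 (by simp)
  have hpne : p ≠ 0 := by
    intro h
    rw [h, eval_zero] at hp0
    exact hp0 rfl
  -- a zero in the disc of radius 1/12
  obtain ⟨x, hx12, hxr⟩ : ∃ x : ℂ, ‖x‖ < 1 / 12 ∧ p.eval x = 0 := by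
    set ρ : ℂ[X] := C (1 / 12 : ℂ) * X with hρ
    have hρe : ∀ z : ℂ, ρ.eval z = 1 / 12 * z := by
      intro z
      rw [hρ]
      simp
    set A : ℂ[X] := qc.comp ρ with hA
    set B : ℂ[X] := (C κ * X * fc).comp ρ with hB
    have hAe : ∀ z : ℂ, A.eval z = qc.eval (1 / 12 * z) := by
      intro z
      rw [hA, eval_comp, hρe]
    have hBe : ∀ z : ℂ, B.eval z = κ * (1 / 12 * z) * fc.eval (1 / 12 * z) := by
      intro z
      rw [hB, eval_comp, hρe]
      simp
    have hlt : ∀ z : ℂ, ‖z‖ = 1 → ‖B.eval z‖ < ‖A.eval z‖ := by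
      intro z hz
      rw [hAe, hBe, hqe, hfe]
      set y : ℂ := 1 / 12 * z with hy
      have hyn : ‖y‖ = 1 / 12 := by
        rw [hy, norm_mul, hz, mul_one]
        norm_num
      have hs : s.eval y ≠ 0 := hd.s0 y (by rw [hyn]; norm_num)
      have hsp : 0 < ‖s.eval y‖ := norm_pos_iff.2 hs
      have hr : ‖r.eval y‖ ≤ 3 * ‖s.eval y‖ := hd.r3 y (by rw [hyn]; norm_num)
      have h1 : 15 ≤ ‖1 - T * y‖ := by
        have h2 : ‖T * y‖ ≤ ‖1 - T * y‖ + 1 := by
          have h3 := norm_sub_le (1 : ℂ) (1 - T * y)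
          rw [sub_sub_cancel, norm_one] at h3
          linarith
        rw [norm_mul, hT, hyn] at h2
        linarith
      have h2 : ‖c * s.eval y + (1 - T * y) * r.eval y‖ ≤
          (2 + 3 * ‖1 - T * y‖) * ‖s.eval y‖ := by
        refine (norm_add_le _ _).trans ?_
        rw [norm_mul, norm_mul]
        nlinarith [norm_nonneg (1 - T * y), norm_nonneg (r.eval y)]
      rw [norm_mul (κ * y), norm_mul κ y, norm_mul (1 - T * y), hyn]
      have h3 : ‖κ‖ * (1 / 12) * ‖c * s.eval y + (1 - T * y) * r.eval y‖ ≤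
          1 / 6 * ((2 + 3 * ‖1 - T * y‖) * ‖s.eval y‖) := by
        have h4 : ‖κ‖ * (1 / 12) ≤ 1 / 6 := by linarith
        exact mul_le_mul h4 h2 (norm_nonneg _) (by norm_num)
      refine h3.trans_lt ?_
      nlinarith
    have hcount := hZ (fun t => A + C (t : ℂ) * B) (max A.natDegree B.natDegree) ?_ ?_ ?_
    · have h0 : nz ((fun t : ℝ => A + C (t : ℂ) * B) 0) = nz A := by
        simp
      have h1 : nz ((fun t : ℝ => A + C (t : ℂ) * B) 1) = nz (p.comp ρ) := by
        have : (fun t : ℝ => A + C (t : ℂ) * B) 1 = p.comp ρ := by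
          simp only [Complex.ofReal_one, map_one, one_mul]
          rw [hp, add_comp, hA, hB]
        rw [this]
      rw [h0, h1] at hcount
      have hAne : A ≠ 0 := by
        intro h
        have h2 := hlt 1 norm_one
        rw [h, eval_zero, norm_zero] at h2
        exact absurd h2 (not_lt.2 (norm_nonneg _))
      have hA1 : 1 ≤ nz A := by
        unfold nz
        rw [Nat.one_le_iff_ne_zero, Ne, Multiset.card_eq_zero]
        intro h
        have h3 : (12 / T : ℂ) ∈ A.roots.filter (fun z => ‖z‖ < 1) := by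
          rw [Multiset.mem_filter, mem_roots hAne, IsRoot.def, hAe, hqe]
          constructor
          · have : (1 : ℂ) - T * (1 / 12 * (12 / T)) = 0 := by
              field_simp
              ring
            rw [this, zero_mul]
          · rw [norm_div, hT, div_lt_one hθ0]
            norm_num
            linarith
        rw [h] at h3
        exact absurd h3 (Multiset.notMem_zero _)
      rw [hcount] at hA1
      have hne : (p.comp ρ).roots.filter (fun z => ‖z‖ < 1) ≠ 0 := by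
        intro h
        unfold nz at hA1
        rw [h, Multiset.card_zero] at hA1
        omega
      obtain ⟨y, hy⟩ := Multiset.exists_mem_of_ne_zero hne
      rw [Multiset.mem_filter, mem_roots', IsRoot.def, eval_comp, hρe] at hy
      refine ⟨1 / 12 * y, ?_, hy.1.2⟩
      rw [norm_mul]
      have : ‖(1 / 12 : ℂ)‖ = 1 / 12 := by norm_num
      rw [this]
      linarith [hy.2]
    · intro t ht
      refine (natDegree_add_le _ _).trans (max_le_max le_rfl ?_)
      exact natDegree_C_mul_le _ _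
    · intro i
      simp only [coeff_add, coeff_C_mul]
      fun_prop
    · intro t ht z hz h0
      simp only [eval_add, eval_mul, eval_C] at h0
      have h1 := hlt z hz
      have h2 : A.eval z = -((t : ℂ) * B.eval z) := by linear_combination h0
      rw [h2, norm_neg, norm_mul, Complex.norm_real, Real.norm_eq_abs, abs_of_nonneg ht.1] at h1
      nlinarith [norm_nonneg (B.eval z), ht.2]
  have hx0 : x ≠ 0 := by
    intro h
    rw [h] at hxr
    exact hp0 hxr
  have hroots : p.roots.filter (fun x => ‖x‖ < 1) = {x} := by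
    have hmem : x ∈ p.roots.filter (fun x => ‖x‖ < 1) := by
      rw [Multiset.mem_filter, mem_roots hpne, IsRoot.def]
      exact ⟨hxr, by linarith⟩
    have hcard : (p.roots.filter (fun x => ‖x‖ < 1)).card = 1 := by
      have h1 : 0 < (p.roots.filter (fun x => ‖x‖ < 1)).card := Multiset.card_pos_iff_exists_mem.2 ⟨x, hmem⟩
      have h2 : nz p ≤ 1 := hnz
      unfold nz at h2
      omega
    obtain ⟨y, hy⟩ := Multiset.card_eq_one.1 hcard
    rw [hy] at hmem
    rw [hy, Multiset.mem_singleton.1 hmem]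
  refine ⟨x⁻¹, by rw [inv_inv]; exact hroots, ?_⟩
  have hs : s.eval x ≠ 0 := hd.s0 x (by linarith)
  have hr : ‖r.eval x‖ ≤ 3 * ‖s.eval x‖ := hd.r3 x (by linarith)
  refine t2e_num (h := r.eval x / s.eval x) hT hθ ?_ hκ hc ?_ ?_
  · rw [norm_inv]
    have h1 : 0 < ‖x‖ := norm_pos_iff.2 hx0
    have h2 : (1 / 12 : ℝ)⁻¹ ≤ ‖x‖⁻¹ := inv_anti₀ h1 hx12.le
    norm_num at h2 ⊢
    linarith
  · rw [norm_div, div_le_iff₀ (norm_pos_iff.2 hs)]
    exact hr
  · rw [hpe, hqe, hfe] at hxr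
    field_simp
    linear_combination -hxr

end Pool.Agent.B5.H42
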