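import Pool.Agent.Lib.MP_b5021c_nt.IfaceE5T
import Pool.Agent.Lib.MP_b5021c_nt.IfaceS2a

/-!
# MP_b5021c_nt, board b5, row E5_T2H: `|q + κ z f| ≤ |q|` on the circle forces a small `r(0)/s(0)`
-/

namespace Pool.Agent.B5.H42

open Polynomial Metric Real
open Pool.Agent.B5

/-- (T2H) -/
theorem t2h (h1 : MevS) (h2 : MepS) : T2hS := by
  intro q f r s T c κ hT hκ hs hq hf hE
  have hT0 : T ≠ 0 := norm_pos_iff.mp (by linarith)
  have hTp : 0 < ‖T‖ := by linarith
  have hs0 : s.eval 0 ≠ 0 := hs 0 (by simp)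
  have hne : ∀ z : ℂ, ‖z‖ = 1 → 1 - T * z ≠ 0 := by
    intro z hz h0
    have h1 : T * z = 1 := (sub_eq_zero.mp h0).symm
    have h2 : ‖T‖ * ‖z‖ = 1 := by rw [← norm_mul, h1, norm_one]
    rw [hz, mul_one] at h2
    linarith
  set b : ℂ := r.eval 0 / s.eval 0 with hb
  set b' : ℂ := (starRingEnd ℂ) b with hb'
  set A1 : ℂ → ℂ := fun z => z * ((-2 * κ * c) / (1 - T * z) +
    (C (-2 * κ) * r).eval z / s.eval z) with hA1
  set A2 : ℂ → ℂ := fun z => z * ((-2 * b' * c * T) / (1 - T * z) +
    (0 : ℂ[X]).eval z / s.eval z) with hA2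
  set A3 : ℂ → ℂ := fun z => (C (-2 * b' * c) * s + C (-2 * b') * r).eval z / s.eval z with hA3
  have hM1 : circleAverage A1 0 1 = -((-2 * κ * c) / T) := h2 _ s T (-2 * κ * c) hT hs
  have hM2 : circleAverage A2 0 1 = -((-2 * b' * c * T) / T) := h2 _ s T (-2 * b' * c * T) hT hs
  have hM3 : circleAverage A3 0 1 = (C (-2 * b' * c) * s + C (-2 * b') * r).eval 0 / s.eval 0 :=
    h1 _ s hs
  have hcont : ∀ (r' : ℂ[X]) (c' : ℂ), ContinuousOn
      (fun z => z * (c' / (1 - T * z) + r'.eval z / s.eval z)) (sphere (0 : ℂ) 1) := by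
    intro r' c'
    apply ContinuousOn.mul continuousOn_id
    apply ContinuousOn.add
    · apply ContinuousOn.div continuousOn_const (by fun_prop)
      intro z hz
      exact hne z (by simpa using hz)
    · apply ContinuousOn.div r'.continuous.continuousOn s.continuous.continuousOn
      intro z hz
      exact hs z (by simpa using (show ‖z‖ = 1 by simpa using hz).le)
  have hI1 : CircleIntegrable A1 0 1 := ContinuousOn.circleIntegrable zero_le_one (hcont _ _)
  have hI2 : CircleIntegrable A2 0 1 := ContinuousOn.circleIntegrable zero_le_one (hcont _ _)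
  have hI3 : CircleIntegrable A3 0 1 := by
    apply ContinuousOn.circleIntegrable zero_le_one
    apply ContinuousOn.div (Polynomial.continuous _).continuousOn s.continuous.continuousOn
    intro z hz
    exact hs z (by simpa using (show ‖z‖ = 1 by simpa using hz).le)
  have hM : circleAverage (fun z => A1 z + A2 z + A3 z) 0 1 =
      2 * (κ * c / T) - 2 * (b' * b) := by
    have hI12 : CircleIntegrable (fun z => A1 z + A2 z) 0 1 := hI1.add hI2
    rw [circleAverage_fun_add hI12 hI3, circleAverage_fun_add hI1 hI2, hM1, hM2, hM3]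
    simp only [eval_add, eval_mul, eval_C]
    rw [hb]
    field_simp
    ring
  have hI : CircleIntegrable (fun z => A1 z + A2 z + A3 z) 0 1 := (hI1.add hI2).add hI3
  have hre : (circleAverage (fun z => A1 z + A2 z + A3 z) 0 1).re =
      circleAverage (fun z => (A1 z + A2 z + A3 z).re) 0 1 := by
    have := ContinuousLinearMap.circleAverage_comp_comm Complex.reCLM hI
    simpa [Function.comp_def] using this.symm
  -- pointwise
  have hpt : ∀ z ∈ sphere (0 : ℂ) |(1 : ℝ)|, -‖b‖ ^ 2 ≤ (A1 z + A2 z + A3 z).re := by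
    intro z hz'
    have hz : ‖z‖ = 1 := by simpa using hz'
    have hz1 := hne z hz
    have hz1' : 1 - z * T ≠ 0 := by rw [mul_comm z T]; exact hz1
    have hsz := hs z hz.le
    have hqz : q.eval z = (1 - T * z) * s.eval z := by rw [hq]; simp
    have hfz : f.eval z = c * s.eval z + (1 - T * z) * r.eval z := by rw [hf]; simp
    have hqz0 : q.eval z ≠ 0 := by rw [hqz]; exact mul_ne_zero hz1 hsz
    set g : ℂ := f.eval z / q.eval z with hg
    have e1 : A1 z + A2 z + A3 z = -2 * (κ * z * g) - 2 * (b' * g) := by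
      rw [hA1, hA2, hA3, hg, hqz, hfz]
      simp only [eval_mul, eval_C, eval_add, eval_zero, zero_div, add_zero]
      field_simp
      ring
    have e2 : ‖1 + κ * z * g‖ ≤ 1 := by
      have h3 := hE z hz
      have h4 : (q + C κ * X * f).eval z = (1 + κ * z * g) * q.eval z := by
        rw [hg]
        simp only [eval_add, eval_mul, eval_C, eval_X]
        field_simp
      rw [h4, norm_mul] at h3
      have h5 : 0 < ‖q.eval z‖ := norm_pos_iff.2 hqz0
      exact le_of_mul_le_mul_right (by linarith) h5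
    have e3 : ‖κ * z * g‖ ^ 2 ≤ -2 * (κ * z * g).re := by
      have h3 : ‖1 + κ * z * g‖ ^ 2 ≤ 1 := by
        have := norm_nonneg (1 + κ * z * g)
        nlinarith
      rw [← Complex.normSq_eq_norm_sq] at h3 ⊢
      rw [Complex.normSq_apply] at h3 ⊢
      simp only [Complex.add_re, Complex.one_re, Complex.add_im, Complex.one_im] at h3
      nlinarith
    have e4 : ‖κ * z * g‖ = ‖g‖ := by
      rw [norm_mul, norm_mul, hκ, hz, one_mul, one_mul]
    have e5 : 2 * (b' * g).re ≤ ‖b‖ ^ 2 + ‖g‖ ^ 2 := by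
      have h3 : (b' * g).re ≤ ‖b‖ * ‖g‖ := by
        refine (Complex.re_le_norm _).trans (le_of_eq ?_)
        rw [norm_mul, hb', Complex.norm_conj]
      nlinarith [sq_nonneg (‖b‖ - ‖g‖)]
    rw [e1]
    have e6 : (-2 * (κ * z * g) - 2 * (b' * g)).re = -2 * (κ * z * g).re - 2 * (b' * g).re := by
      simp [Complex.sub_re, Complex.mul_re]
    rw [e6]
    rw [e4] at e3
    linarith
  have hge : -‖b‖ ^ 2 ≤ circleAverage (fun z => (A1 z + A2 z + A3 z).re) 0 1 := by
    have hI' : CircleIntegrable (fun z => (A1 z + A2 z + A3 z).re) 0 1 := by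
      apply ContinuousOn.circleIntegrable zero_le_one
      apply Complex.continuous_re.comp_continuousOn
      apply ContinuousOn.add
      · exact (hcont _ _).add (hcont _ _)
      · apply ContinuousOn.div (Polynomial.continuous _).continuousOn s.continuous.continuousOn
        intro z hz
        exact hs z (by simpa using (show ‖z‖ = 1 by simpa using hz).le)
    have h3 := circleAverage_mono (f₁ := fun _ => -‖b‖ ^ 2) (circleIntegrable_const _ _ _) hI' hpt
    rwa [circleAverage_const] at h3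
  rw [← hre, hM] at hge
  have hbb : b' * b = ((‖b‖ ^ 2 : ℝ) : ℂ) := by
    rw [hb', mul_comm, Complex.mul_conj, Complex.normSq_eq_norm_sq]
  have h3 : (2 * (κ * c / T) - 2 * (b' * b)).re = 2 * (κ * c / T).re - 2 * ‖b‖ ^ 2 := by
    rw [hbb, Complex.sub_re]
    congr 1
    · simp
    · rw [← Complex.ofReal_ofNat, ← Complex.ofReal_mul, Complex.ofReal_re]
  rw [h3] at hge
  have h4 : (κ * c / T).re ≤ ‖c‖ / ‖T‖ := by
    refine (Complex.re_le_norm _).trans (le_of_eq ?_)
    rw [norm_div, norm_mul, hκ, one_mul]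
  have h5 : ‖b‖ ^ 2 ≤ 2 * ‖c‖ / ‖T‖ := by
    have : 2 * ‖c‖ / ‖T‖ = 2 * (‖c‖ / ‖T‖) := by ring
    rw [this]
    linarith
  have h6 : ‖r.eval 0‖ ^ 2 = ‖b‖ ^ 2 * ‖s.eval 0‖ ^ 2 := by
    rw [hb, norm_div, ← mul_pow, div_mul_cancel₀ _ (norm_ne_zero_iff.2 hs0)]
  rw [h6]
  exact mul_le_mul_of_nonneg_right h5 (sq_nonneg _)

end Pool.Agent.B5.H42
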