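import Pool.Agent.Lib.MP_b5021c_nt.IfaceE5T
import Pool.Agent.Lib.MP_b5021c_nt.E2.H27.Tre
import Pool.Agent.Lib.MP_b5021c_nt.E2.H53.Psr

/-!
# MP_b5021c_nt, board b5, row E5_TRS: the terminal case evaluated at the original zero
-/

namespace Pool.Agent.B5.H42

open scoped LaurentPolynomial Topology
open Polynomial Pool.Agent.B5

/-- (TRS) -/
theorem trs (hTrm : TrmS) (hN : PsnS) (hSnt : SntS) (hE2 : E2S) (hEv : EvRS) :
    TrsS := by
  intro O _ _ _ _ P L _ _ _ _ _ phi D S eta θ θ' Q c g hDD hrk hS hθ hP hQ0 hP' hA' hg hc hA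
  obtain ⟨hEv1, hEv2, hEv3, hEv4⟩ := hEv O
  obtain ⟨-, -, -, -, -, hray⟩ := hE2 O P L phi D hDD hrk
  obtain ⟨hle, -⟩ := hray S hS
  obtain ⟨i0, N, F, T, hT0, hTn, hrank, hsumT⟩ := hTrm O P L phi D S eta θ' hDD hrk hS hP' hA'
  set V : RO O := D.coeff 0 + (eta : RO O) * D.coeff S with hV
  obtain ⟨hθ1, n1, q1, hQ1, hq1, w, hw, hroots⟩ := hP
  obtain ⟨n, q, e, hQ, hW, hq, he, hfree⟩ := hA
  have hqq : q1 = q := by
    apply H53.tl_eq (hQ1.symm.trans hQ)
    · intro h0
      rw [h0, map_zero, norm_zero] at hq1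
      exact zero_ne_one hq1
    · intro h0
      rw [h0, map_zero, norm_zero] at hq
      exact zero_ne_one hq
  subst hqq
  set v : ℝ := 2 * (Coef.emb g : ℂ).re + 1 with hv
  have hv0 : 0 < v := by rw [hv]; linarith
  have hθ0 : (0 : ℝ) < θ := by linarith
  set qc : ℂ[X] := q1.map (Coef.emb : O →+* ℂ) with hqc
  set ec : ℂ[X] := e.map (Coef.emb : O →+* ℂ) with hec
  have hz0 : ∀ z : ℂ, ‖z‖ = 1 → z ≠ 0 := by
    intro z hz h
    rw [h, norm_zero] at hz
    exact zero_ne_one hz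
  have hevQ : ∀ z : ℂ, ‖z‖ = 1 → evL z Q = z ^ n * qc.eval z := fun z hz => by
    rw [hQ, H45.evL_T_mul (hz0 z hz)]
  have hevW : ∀ z : ℂ, ‖z‖ = 1 → evL z (c * V) = z ^ n * (z * ec.eval z) := fun z hz => by
    rw [hW, H45.evL_T_mul (hz0 z hz), zpow_add_one₀ (hz0 z hz), mul_assoc]
  have hcirc : ∀ z : ℂ, ‖z‖ = 1 → ∃ c : Circle, (c : ℂ) = z := fun z hz =>
    ⟨⟨z, mem_sphere_zero_iff_norm.mpr hz⟩, rfl⟩
  have hqn : ∀ z : ℂ, ‖z‖ = 1 → qc.eval z ≠ 0 := by
    intro z hz h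
    obtain ⟨x, hx⟩ := hcirc z hz
    apply hQ0 x
    rw [← hEv1, hx, hevQ z hz, h, mul_zero]
  have hzn : ∀ z : ℂ, ‖z‖ = 1 → ‖z ^ n‖ = 1 := by
    intro z hz
    rw [norm_zpow, hz, one_zpow]
  -- the inequality on the circle
  have hCg : ∀ z : Circle, evR z (LaurentPolynomial.C g : RO O) = Coef.emb g := by
    intro z
    change LaurentPolynomial.eval₂ (Coef.emb : O →+* ℂ) (Circle.toUnits z) _ = _
    rw [LaurentPolynomial.eval₂_C]
  have hrel : ∀ x : Circle, evR x c * evR x (D.coeff 0) =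
      evR x Q - Coef.emb g * evR x (c * V) := by
    intro x
    have h := congrArg (evR x) hc
    rw [map_mul, map_sub, map_mul (evR x) (LaurentPolynomial.C g), hCg] at h
    exact h
  have hineq : ∀ z : ℂ, ‖z‖ = 1 →
      v * ‖z * ec.eval z‖ ^ 2 ≤ 2 * (qc.eval z * (starRingEnd ℂ) (z * ec.eval z)).re := by
    intro z hz
    obtain ⟨x, hx⟩ := hcirc z hz
    have h1 : ‖evR x (V - D.coeff 0)‖ ≤ ‖evR x (D.coeff 0)‖ := by
      have h2 : V - D.coeff 0 = (eta : RO O) * D.coeff S := by rw [hV]; ring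
      rw [h2, map_mul, norm_mul, hEv2 x _ eta.isUnit, one_mul]
      exact hle x
    have h2 : ‖evR x c * evR x V - evR x c * evR x (D.coeff 0)‖ ≤
        ‖evR x c * evR x (D.coeff 0)‖ := by
      rw [← mul_sub, norm_mul, norm_mul, ← map_sub]
      exact mul_le_mul_of_nonneg_left h1 (norm_nonneg _)
    rw [hrel x, ← map_mul] at h2
    set a : ℂ := evR x Q with ha
    set b : ℂ := evR x (c * V) with hb
    have h3 : ‖b - (a - Coef.emb g * b)‖ ^ 2 ≤ ‖a - Coef.emb g * b‖ ^ 2 :=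
      pow_le_pow_left₀ (norm_nonneg _) h2 2
    rw [← Complex.normSq_eq_norm_sq, ← Complex.normSq_eq_norm_sq, Complex.normSq_sub] at h3
    have h4 : v * ‖b‖ ^ 2 ≤ 2 * (a * (starRingEnd ℂ) b).re := by
      rw [← Complex.normSq_eq_norm_sq]
      have h5 : (b * (starRingEnd ℂ) (a - Coef.emb g * b)).re =
          (a * (starRingEnd ℂ) b).re - (Coef.emb g : ℂ).re * Complex.normSq b := by
        rw [Complex.normSq_apply]
        simp only [Complex.mul_re, Complex.conj_re, Complex.conj_im, Complex.sub_re,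
          Complex.sub_im, Complex.mul_im]
        ring
      rw [h5] at h3
      rw [hv]
      linarith
    have ha' : a = z ^ n * qc.eval z := by rw [ha, ← hEv1, hx, hevQ z hz]
    have hb' : b = z ^ n * (z * ec.eval z) := by rw [hb, ← hEv1, hx, hevW z hz]
    rw [ha', hb', norm_mul, hzn z hz, one_mul] at h4
    have h6 : z ^ n * qc.eval z * (starRingEnd ℂ) (z ^ n * (z * ec.eval z)) =
        qc.eval z * (starRingEnd ℂ) (z * ec.eval z) := by
      rw [map_mul (starRingEnd ℂ) (z ^ n)]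
      have h7 : z ^ n * (starRingEnd ℂ) (z ^ n) = 1 := by
        rw [Complex.mul_conj, Complex.normSq_eq_norm_sq, hzn z hz]
        norm_num
      calc z ^ n * qc.eval z * ((starRingEnd ℂ) (z ^ n) * (starRingEnd ℂ) (z * ec.eval z)) =
          (z ^ n * (starRingEnd ℂ) (z ^ n)) * (qc.eval z * (starRingEnd ℂ) (z * ec.eval z)) := by
            ring
        _ = _ := by rw [h7, one_mul]
    rw [h6] at h4
    exact h4
  set p : ℂ[X] := C 2 * qc - C (v : ℂ) * X * ec with hp
  have hpev : ∀ z : ℂ, p.eval z = 2 * qc.eval z - v * (z * ec.eval z) := by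
    intro z
    rw [hp]
    simp only [eval_sub, eval_mul, eval_C, eval_X]
    ring
  have hsum : p + C ((v : ℝ) : ℂ) * X * ec = C 2 * qc := by
    rw [hp]
    ring
  have hw0 : w ≠ 0 := by
    intro h
    rw [h, norm_zero] at hw
    exact (inv_pos.mpr hθ0).ne hw
  have hPH : PHyp p ec w v := by
    refine ⟨hv0, hw0, ?_, hfree, ?_, ?_, ?_⟩
    · rw [hw]
      exact inv_lt_one_of_one_lt₀ hθ1
    · intro z hz
      have h1 := hineq z hz
      have h2 : (p.eval z * (starRingEnd ℂ) (z * ec.eval z)).re =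
          2 * (qc.eval z * (starRingEnd ℂ) (z * ec.eval z)).re - v * ‖z * ec.eval z‖ ^ 2 := by
        rw [hpev, sub_mul, Complex.sub_re, mul_assoc, mul_assoc, Complex.mul_conj,
          Complex.normSq_eq_norm_sq, ← Complex.ofReal_mul, Complex.ofReal_re]
        congr 1
        have h3 : (2 : ℂ) * (qc.eval z * (starRingEnd ℂ) (z * ec.eval z)) =
            (2 : ℝ) * (qc.eval z * (starRingEnd ℂ) (z * ec.eval z)) := by push_cast; ring
        rw [h3, Complex.re_ofReal_mul]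
      rw [h2]
      linarith
    · intro z hz
      rw [hsum, eval_mul, eval_C]
      exact mul_ne_zero two_ne_zero (hqn z hz)
    · rw [hsum, roots_C_mul _ two_ne_zero]
      exact hroots
  obtain ⟨-, hineq2⟩ := hN p ec w v hPH
  have hec0 : ec ≠ 0 := by
    intro h
    apply hfree 0 (by simp)
    rw [h, eval_zero]
  have hEfin : (ec.rootSet ℂ).Finite := Polynomial.rootSet_finite ec ℂ
  have ha15 : ‖w‖ ≤ 1 / 15 := by
    rw [hw, inv_eq_one_div]
    exact one_div_le_one_div_of_le (by norm_num) hθ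
  have ha1 : ‖w‖ < 1 := by linarith
  have hkey : Real.circleAverage (fun z => (1 - ‖w‖ ^ 2) / ‖z - w‖ ^ 2 *
        (p.eval z / (z * ec.eval z)).re) 0 1 =
      ∑ i, pmn w ((T i).coeff 0) := by
    have h1 : Real.circleAverage (fun z => ∑ i, (1 - ‖w‖ ^ 2) / ‖z - w‖ ^ 2 *
        (evL z ((T i).coeff 0)).re) 0 1 = ∑ i, pmn w ((T i).coeff 0) := by
      rw [Real.circleAverage_fun_sum]
      · rfl
      · intro i _
        exact H27.ci_pmn w ha1 _
    rw [← h1]
    apply H27.ca_congr_fin hEfin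
    intro z hz hzE
    have he1 : ec.eval z ≠ 0 := by
      intro h
      apply hzE
      rw [Polynomial.mem_rootSet]
      exact ⟨hec0, by rw [Polynomial.aeval_def, Polynomial.eval₂_eq_eval_map]; simpa using h⟩
    obtain ⟨x, hx⟩ := hcirc z hz
    have hzn0 : z ^ n ≠ 0 := zpow_ne_zero n (hz0 z hz)
    have hWz : evR x (c * V) = z ^ n * (z * ec.eval z) := by rw [← hEv1, hx, hevW z hz]
    have hWz0 : evR x (c * V) ≠ 0 := by
      rw [hWz]
      exact mul_ne_zero hzn0 (mul_ne_zero (hz0 z hz) he1)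
    have hVz : evR x V ≠ 0 := by
      intro h0
      apply hWz0
      rw [map_mul, h0, mul_zero]
    have hcz : evR x c ≠ 0 := by
      intro h0
      apply hWz0
      rw [map_mul, h0, zero_mul]
    have h2 := hsumT x hVz
    have h3 : evR x (D.coeff 0) / evR x V = qc.eval z / (z * ec.eval z) - Coef.emb g := by
      have h4 : evR x (D.coeff 0) / evR x V =
          (evR x c * evR x (D.coeff 0)) / (evR x c * evR x V) := by
        rw [mul_div_mul_left _ _ hcz]
      rw [h4, hrel x, ← map_mul, sub_div, mul_div_assoc, div_self hWz0, mul_one, hWz,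
        ← hEv1 x Q, hx, hevQ z hz, mul_div_mul_left _ _ hzn0]
    have h5 : (p.eval z / (z * ec.eval z)).re = (evR x (∑ i, (T i).coeff 0)).re := by
      rw [h2, h3, hpev, sub_div, mul_div_assoc (v : ℂ),
        div_self (mul_ne_zero (hz0 z hz) he1), mul_one, mul_div_assoc, Complex.sub_re,
        Complex.sub_re, Complex.ofReal_re]
      have h6 : (2 : ℂ) * (qc.eval z / (z * ec.eval z)) =
          (2 : ℝ) * (qc.eval z / (z * ec.eval z)) := by push_cast; ring
      rw [h6, Complex.re_ofReal_mul, hv]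
      ring
    rw [h5, map_sum, Complex.re_sum, Finset.mul_sum]
    refine Finset.sum_congr rfl fun i _ => ?_
    rw [← hEv1, hx]
  rw [hkey] at hineq2
  have hsn : ∀ i, 1 + (rk (supp (T i)) : ℝ) ≤ pmn w ((T i).coeff 0) := fun i =>
    hSnt O (Ker (F i)) (T i) (hT0 i) (hTn i) w ha15
  have h5 : (Module.finrank ℤ L : ℝ) ≤ 1 + ∑ i, (1 + (rk (supp (T i)) : ℝ)) := by
    exact_mod_cast hrank
  have h6 : ∑ i, (1 + (rk (supp (T i)) : ℝ)) ≤ ∑ i, pmn w ((T i).coeff 0) :=
    Finset.sum_le_sum fun i _ => hsn i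
  have h7 : -(p.eval 0 / ec.eval 0 * (1 / w - (starRingEnd ℂ) w)).re ≤ 2 * (θ - θ⁻¹) := by
    have h3 : -(p.eval 0 / ec.eval 0 * (1 / w - (starRingEnd ℂ) w)).re ≤
        ‖p.eval 0 / ec.eval 0 * (1 / w - (starRingEnd ℂ) w)‖ := by
      have h4 := Complex.abs_re_le_norm (p.eval 0 / ec.eval 0 * (1 / w - (starRingEnd ℂ) w))
      exact le_trans (neg_le_abs _) h4
    refine h3.trans (le_of_eq ?_)
    rw [norm_mul, norm_div]
    have h5 : ‖p.eval 0‖ = 2 := by
      rw [hpev, zero_mul, mul_zero, sub_zero, norm_mul, Complex.norm_ofNat]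
      have h6 : qc.eval 0 = Coef.emb (q1.coeff 0) := by
        rw [hqc, ← Polynomial.coeff_zero_eq_eval_zero, Polynomial.coeff_map]
      rw [h6, hq, mul_one]
    have h7 : ‖ec.eval 0‖ = 1 := by
      rw [hec, ← Polynomial.coeff_zero_eq_eval_zero, Polynomial.coeff_map, he]
    rw [h5, h7, div_one]
    congr 1
    have h8 : (1 / w - (starRingEnd ℂ) w) = ((1 - ‖w‖ ^ 2 : ℝ) : ℂ) / w := by
      have h9 : (starRingEnd ℂ) w * w = ((‖w‖ ^ 2 : ℝ) : ℂ) := by
        rw [mul_comm, Complex.mul_conj, Complex.normSq_eq_norm_sq]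
      rw [eq_div_iff hw0, sub_mul, one_div, inv_mul_cancel₀ hw0, h9]
      push_cast
      ring
    rw [h8, norm_div, hw, Complex.norm_real, Real.norm_eq_abs]
    have h10 : θ⁻¹ < 1 := inv_lt_one_of_one_lt₀ hθ1
    have h11 : 0 < θ⁻¹ := inv_pos.mpr hθ0
    have h12 : 0 < 1 - θ⁻¹ ^ 2 := by nlinarith
    rw [abs_of_pos h12]
    field_simp
  have h8 : v = 2 * (Coef.emb g : ℂ).re + 1 := hv
  linarith

end Pool.Agent.B5.H42
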