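import Pool.Agent.Lib.MP_b5021c_nt.IfaceAM
import Pool.Agent.Lib.MP_b5021c_nt.K.H29.Fdc
import Pool.Agent.Lib.MP_b5021c_nt.B.H78.Bpd
import Pool.Agent.Lib.MP_b5021c_nt.B.H65.B5a

/-!
# Board b5, row AM_IRR: the restriction to `Λ_S + span T` is in `DD`
-/

set_option linter.unusedSectionVars false

namespace Pool.Agent.B5.H42.Irr

open scoped LaurentPolynomial
open AddMonoidAlgebra
open Pool.Agent.B5.H71 (em em_single em_coeff em_coeff_not em_res)

section

variable {O : Type} [CommRing O] {L : Type} [AddCommGroup L]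

/-- The closing of the restriction, if the exponents of the closing of `D` are in `K`. -/
theorem cl_em_res (k : L →+ ℤ) (S : L) (h : k S = 1) (eta : (RO O)ˣ) (K : Submodule ℤ L)
    (hS : S ∈ K) (D : AO O L) (hK : ∀ a : Ker k, (cl k S h eta D).coeff a ≠ 0 → (a : L) ∈ K) :
    cl k S h eta (em K (res K D)) = cl k S h eta D := by
  classical
  apply AddMonoidAlgebra.ext
  apply Finsupp.ext
  intro a
  by_cases ha : (a : L) ∈ K
  · rw [H65.cl_coeff, H65.cl_coeff]
    have h1 : (em K (res K D)).coeff.support ⊆ (em K (res K D)).coeff.support ∪ D.coeff.support :=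
      Finset.subset_union_left
    have h2 : D.coeff.support ⊆ (em K (res K D)).coeff.support ∪ D.coeff.support :=
      Finset.subset_union_right
    rw [Finset.sum_subset h1, Finset.sum_subset h2]
    · refine Finset.sum_congr rfl fun b _ => ?_
      by_cases hb : prj k S h b = a
      · have h3 : b = (a : L) + k b • S := by
          have := congrArg (fun x : Ker k => (x : L)) hb
          simp only [prj_coe] at this
          rw [← this, sub_add_cancel]
        have h4 : b ∈ K := by rw [h3]; exact K.add_mem ha (K.smul_mem _ hS)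
        have h5 : (em K (res K D)).coeff b = D.coeff b := (em_coeff K (res K D) ⟨b, h4⟩).trans rfl
        rw [h5]
      · rw [Finsupp.single_apply, Finsupp.single_apply, if_neg hb, if_neg hb]
    · intro b _ hb
      rw [Finsupp.notMem_support_iff] at hb
      rw [hb, zero_mul, Finsupp.single_zero, Finsupp.coe_zero, Pi.zero_apply]
    · intro b _ hb
      rw [Finsupp.notMem_support_iff] at hb
      rw [hb, zero_mul, Finsupp.single_zero, Finsupp.coe_zero, Pi.zero_apply]
  · have h1 : (cl k S h eta D).coeff a = 0 := by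
      by_contra hne
      exact ha (hK a hne)
    rw [h1, H65.cl_coeff]
    refine Finset.sum_eq_zero fun b hb => ?_
    rw [Finsupp.single_apply, if_neg]
    intro h2
    apply ha
    have hbK : b ∈ K := by
      by_contra hne
      rw [Finsupp.mem_support_iff] at hb
      exact hb (em_coeff_not K _ b hne)
    have := congrArg (fun x : Ker k => (x : L)) h2
    simp only [prj_coe] at this
    rw [← this]
    exact K.sub_mem hbK (K.smul_mem _ hS)

/-- An element with two exponents. -/
theorem binom (g : AO O L) (b : L) (hb : b ≠ 0) (hs : supp g = {0, b}) :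
    g = single 0 (g.coeff 0) + single b (g.coeff b) := by
  classical
  apply AddMonoidAlgebra.ext
  apply Finsupp.ext
  intro a
  rw [coeff_add, Finsupp.add_apply, coeff_single, coeff_single, Finsupp.single_apply,
    Finsupp.single_apply]
  by_cases h0 : a = 0
  · subst h0
    rw [if_pos rfl, if_neg hb, add_zero]
  · by_cases h1 : a = b
    · subst h1
      rw [if_neg (Ne.symm h0), if_pos rfl, zero_add]
    · rw [if_neg (Ne.symm h0), if_neg (Ne.symm h1), add_zero]
      by_contra hne
      have : a ∈ supp g := hne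
      rw [hs] at this
      rcases this with h2 | h2
      · exact h0 h2
      · exact h1 h2

/-- The closing of an element with two exponents. -/
theorem cl_binom (k : L →+ ℤ) (S : L) (h : k S = 1) (eta : (RO O)ˣ) (K : Submodule ℤ L)
    (g : AO O K) (b : K) (hb : b ≠ 0) (hs : supp g = {0, b}) :
    cl k S h eta (em K g) = single 0 (g.coeff 0) +
      single (prj k S h (b : L)) (g.coeff b * ((eta ^ (k (b : L)) : (RO O)ˣ) : RO O)) := by
  conv_lhs => rw [binom g b hb hs]
  rw [map_add, map_add, em_single, em_single, cl_single, cl_single]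
  have h0 : ((0 : K) : L) = 0 := rfl
  rw [h0, map_zero (prj k S h), map_zero k, zpow_zero, Units.val_one, mul_one]

end

section

variable {O : Type} [CommRing O] [IsDomain O] [IsPrincipalIdealRing O] [Coef O] {P : Type}
  [Fintype P] [DecidableEq P] {L : Type} [AddCommGroup L] [Module.Free ℤ L] [Module.Finite ℤ L]

/-- A nonzero binary exponent contains a port. -/
theorem exists_port (phi : L →+ (P → ℤ)) (hphi : Function.Injective phi) {a : L} (ha : a ≠ 0)
    (hb : Bin phi a) : ∃ i, phi a i = 1 := by
  by_contra hne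
  push Not at hne
  apply ha
  apply hphi
  rw [map_zero]
  funext i
  exact (hb i).resolve_right (hne i)

/-- THE MAIN STEP: no factor of the restriction with two exponents and units as coefficients. -/
theorem no_small (hFD : FDS) (hMm : MmulS) (hEv : EvRS) (hE2 : E2S) (hB5a : B5aS) (hVco : VcoS)
    (hU : UnitAS) (phi : L →+ (P → ℤ)) (D : AO O L) (S : L) (eta : (RO O)ˣ) (hD : DD phi D)
    (h2 : 2 ≤ Module.finrank ℤ L) (hS : Ray D S)
    (hV0 : D.coeff 0 + (eta : RO O) * D.coeff S ≠ 0) (hNs : NoSm phi D S eta)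
    (K : Submodule ℤ L) (hK : LamS eta S D ≤ K) (g H : AO O K) (hgH : res K D = g * H) (b : K)
    (hb : b ≠ 0) (hbB : Bin phi (b : L)) (hs : supp g = {0, b}) (hg0 : IsUnit (g.coeff 0))
    (hgb : IsUnit (g.coeff b)) : False := by
  classical
  have hSB : Bin phi S := hD.bin S hS.1
  obtain ⟨i0, hi0⟩ := exists_port phi hD.inj hS.2.1 hSB
  have h : co phi i0 S = 1 := hi0
  have hSK : S ∈ K := hK (Submodule.subset_span (Set.mem_insert _ _))
  have hbL : (b : L) ≠ 0 := fun hh => hb (Subtype.ext hh)
  have hem : em K (res K D) = em K g * em K H := by rw [hgH, map_mul]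
  by_cases hbS : (b : L) = S
  · -- the factor lies on the ray `S`
    obtain ⟨lam, hl0, hl⟩ := hS.2.2
    set et : (RO O)ˣ := -(hg0.unit * hgb.unit⁻¹) with het
    have h1 : cl (co phi i0) S h et (em K g) = 0 := by
      rw [cl_binom (co phi i0) S h et K g b hb hs, hbS, H71.prj_self, h, zpow_one, ← single_add,
        het, Units.val_neg, Units.val_mul]
      have e1 : g.coeff 0 + g.coeff b * -((hg0.unit : RO O) * ((hgb.unit⁻¹ : (RO O)ˣ) : RO O)) =
          0 := by
        have e2 : g.coeff b * ((hgb.unit⁻¹ : (RO O)ˣ) : RO O) = 1 := hgb.mul_val_inv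
        have e3 : ((hg0.unit : (RO O)ˣ) : RO O) = g.coeff 0 := hg0.unit_spec
        rw [e3]
        linear_combination (-(g.coeff 0)) * e2
      rw [e1, single_zero]
    have h3 : cl (co phi i0) S h et (em K (res K D)) = 0 := by rw [hem, map_mul, h1, zero_mul]
    have hc : ∀ a : L, a ∈ K → (em K (res K D)).coeff a = D.coeff a := fun a ha =>
      (em_coeff K (res K D) ⟨a, ha⟩).trans rfl
    have hsub : ∀ a ∈ supp (em K (res K D)), a ∈ supp D := by
      intro a ha
      by_cases haK : a ∈ K
      · change D.coeff a ≠ 0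
        rw [← hc a haK]
        exact ha
      · exact absurd (em_coeff_not K _ a haK) ha
    have h4 := (hB5a O L (em K (res K D)) (co phi i0) S h et lam hl0
      (fun a ha => hl a (hsub a ha))).1
    rw [h3, hc 0 K.zero_mem, hc S hSK] at h4
    obtain ⟨z, hz⟩ := ((hE2 O P L phi D hD h2).2.2.2.2.2 S hS).2
    apply hz
    have h5 : D.coeff 0 = -((et : RO O) * D.coeff S) := by
      have h6 : (0 : RO O) = D.coeff 0 + (et : RO O) * D.coeff S := h4
      linear_combination -h6
    have h7 : ‖evR z (et : RO O)‖ = 1 := (hEv O).2.1 z et et.isUnit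
    rw [h5, map_neg, norm_neg, map_mul, norm_mul, h7, one_mul]
  · -- the factor survives the closing
    have hKc : ∀ a : Ker (co phi i0), (cl (co phi i0) S h eta D).coeff a ≠ 0 → (a : L) ∈ K := by
      intro a ha
      rw [(hVco O P L phi D S eta hD.inj hD.bin hSB hS.2.1).2.2.2.2 i0 h a] at ha
      exact hK (Submodule.subset_span (Set.mem_insert_of_mem _ ha))
    have h1 := cl_em_res (co phi i0) S h eta K hSK D hKc
    rw [hem, map_mul, cl_binom (co phi i0) S h eta K g b hb hs] at h1
    set b' : Ker (co phi i0) := prj (co phi i0) S h (b : L) with hb'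
    set ka : (RO O)ˣ := -(hgb.unit * eta ^ (co phi i0 (b : L)) * hg0.unit⁻¹) with hka
    have hu : (single 0 (g.coeff 0) +
        single b' (g.coeff b * ((eta ^ (co phi i0 (b : L)) : (RO O)ˣ) : RO O)) :
          AO O (Ker (co phi i0))) =
        cst (g.coeff 0) * (1 - single b' ((ka : (RO O)ˣ) : RO O)) := by
      rw [mul_sub, mul_one, cst, single_mul_single, zero_add, sub_eq_add_neg, ← single_neg]
      congr 2
      rw [hka, Units.val_neg, Units.val_mul, Units.val_mul]
      have e2 : g.coeff 0 * ((hg0.unit⁻¹ : (RO O)ˣ) : RO O) = 1 := hg0.mul_val_inv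
      have e3 : ((hgb.unit : (RO O)ˣ) : RO O) = g.coeff b := hgb.unit_spec
      rw [e3]
      linear_combination (-(g.coeff b) * ((eta ^ (co phi i0 (b : L)) : (RO O)ˣ) : RO O)) * e2
    rw [hu] at h1
    -- a functional with the value one
    have hv : ∀ j, co (phK phi (co phi i0)) j b' = phi (b : L) j - phi (b : L) i0 * phi S j := by
      intro j
      change phi ((b' : L)) j = _
      rw [hb', prj_coe, map_sub, map_zsmul]
      rfl
    obtain ⟨f, hf⟩ : ∃ f : Ker (co phi i0) →+ ℤ, f b' = 1 := by
      by_cases hj : ∃ j, phi (b : L) j = 1 ∧ phi S j = 0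
      · obtain ⟨j, hj1, hj2⟩ := hj
        exact ⟨co (phK phi (co phi i0)) j, by rw [hv, hj1, hj2]; ring⟩
      · push Not at hj
        rcases hbB i0 with h0 | h0
        · obtain ⟨j, hj1⟩ := exists_port phi hD.inj hbL hbB
          exact ⟨co (phK phi (co phi i0)) j, by rw [hv, hj1, h0]; ring⟩
        · obtain ⟨j, hj1⟩ : ∃ j, phi (b : L) j ≠ phi S j := by
            by_contra hne
            push Not at hne
            exact hbS (hD.inj (funext hne))
          have hj2 : phi (b : L) j = 0 := by
            rcases hbB j with h3 | h3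
            · exact h3
            · rcases hSB j with h4 | h4
              · exact absurd h4 (hj j h3)
              · exact absurd (h3.trans h4.symm) hj1
          have hj3 : phi S j = 1 := by
            rcases hSB j with h4 | h4
            · exact absurd (hj2.trans h4.symm) hj1
            · exact h4
          refine ⟨-co (phK phi (co phi i0)) j, ?_⟩
          rw [AddMonoidHom.neg_apply, hv, hj2, hj3, h0]
          norm_num
    have hb0 : b' ≠ 0 := by
      intro hh
      rw [hh, map_zero] at hf
      exact zero_ne_one hf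
    have hcc : CC phi D S i0 eta := ⟨hD, h2, hS, h, hV0⟩
    obtain ⟨c, n, G, hG⟩ := hFD O P L phi D S i0 eta h hcc
    have hdvd : (1 - single b' ((ka : (RO O)ˣ) : RO O) : AO O (Ker (co phi i0))) ∣
        cst c * (1 * ∏ i ∈ Finset.univ, G i) := by
      rw [one_mul, ← hG.eq, ← h1]
      exact ⟨cst (g.coeff 0) * cl (co phi i0) S h eta (em K H), by ring⟩
    obtain ⟨i, -, hi⟩ := H78.exists_dvd_of_dvd_prod f b' hf ka c hG.c0 1 one_ne_zero (by
      intro a ha
      by_contra hne
      apply ha
      rw [one_def, coeff_single, Finsupp.single_apply, if_neg]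
      rintro rfl
      exact hne (map_zero f)) Finset.univ G hdvd
    obtain ⟨q, hq⟩ := hi
    rcases (hG.irr i).isUnit_or_isUnit hq with h3 | h3
    · obtain ⟨a, c', -, h4⟩ := (hU O _ _).1 h3
      have h5 : (1 - single b' ((ka : (RO O)ˣ) : RO O) : AO O (Ker (co phi i0))).coeff 0 = 1 := by
        rw [coeff_sub, Finsupp.sub_apply, one_def, coeff_single, coeff_single,
          Finsupp.single_eq_same, Finsupp.single_apply, if_neg hb0, sub_zero]
      have h6 : (1 - single b' ((ka : (RO O)ˣ) : RO O) : AO O (Ker (co phi i0))).coeff b' =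
          -(ka : RO O) := by
        rw [coeff_sub, Finsupp.sub_apply, one_def, coeff_single, coeff_single,
          Finsupp.single_eq_same, Finsupp.single_apply, if_neg (Ne.symm hb0), zero_sub]
      rw [h4, coeff_single, Finsupp.single_apply] at h5 h6
      by_cases ha : a = 0
      · rw [if_neg (by rw [ha]; exact Ne.symm hb0)] at h6
        have h7 : (ka : RO O) = 0 := neg_eq_zero.mp h6.symm
        exact ka.ne_zero h7
      · rw [if_neg ha] at h5
        exact zero_ne_one h5
    · obtain ⟨a, c', hc', h4⟩ := (hU O _ _).1 h3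
      rw [h4, H78.coeff_one_sub_single_mul] at hq
      have h5 : (G i).coeff 0 ≠ 0 := (hG.st i).1
      have h6 : IsUnit ((G i).coeff 0) := by
        rw [hq, coeff_sub, Finsupp.sub_apply, coeff_single, coeff_single, Finsupp.single_apply,
          Finsupp.single_apply] at h5 ⊢
        by_cases ha : a = 0
        · rw [if_pos ha, if_neg (by rw [ha, add_zero]; exact hb0), sub_zero]
          exact hc'
        · rw [if_neg ha] at h5 ⊢
          by_cases ha2 : b' + a = 0
          · rw [if_pos ha2, zero_sub]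
            exact (ka.isUnit.mul hc').neg
          · rw [if_neg ha2, sub_zero] at h5
            exact absurd rfl h5
      have h7 := hNs i0 h c n G hG i
      rw [(hMm O).2.2 _ h6] at h7
      exact lt_irrefl _ h7

/-- Exactly one factor. -/
theorem count (hE1 : E1S) (hMV : MVS) {θ : ℝ} {n : ℕ} (c : RO O) (q : Fin n → RO O)
    (h : ClassP θ (c * ∏ i, q i)) (hq : ∀ i, M (q i) ≠ 1) : n = 0 ∨ (n = 1 ∧ M c = 1) := by
  classical
  have hone : ∀ p r : RO O, ClassV 1 (p * r) → M p = 1 := by
    intro p r hpr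
    obtain ⟨N1, N2, hp, hr, hN⟩ := (hE1 O).1 1 p r hpr
    have h1 := hp.1
    have h2 := hr.1
    have h3 : N1 = 1 := by nlinarith
    rw [h3] at hp
    exact ((hMV O).1 1 p hp).2
  have key : ∀ i, ClassV 1 (c * ∏ j ∈ Finset.univ.erase i, q j) := by
    intro i
    have e : c * ∏ i, q i = q i * (c * ∏ j ∈ Finset.univ.erase i, q j) := by
      rw [← Finset.mul_prod_erase Finset.univ q (Finset.mem_univ i)]
      ring
    rw [e] at h
    rcases (hE1 O).2 θ _ _ h with h1 | h1
    · exact h1.2
    · exact absurd ((hMV O).1 1 _ h1.1).2 (hq i)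
  rcases Nat.lt_or_ge n 2 with hn | hn
  · interval_cases n
    · exact Or.inl rfl
    · exact Or.inr ⟨rfl, hone _ _ (key 0)⟩
  · exfalso
    have h0 : 0 < n := by omega
    have h1 : 1 < n := by omega
    have k0 := key ⟨0, h0⟩
    have hmem : (⟨1, h1⟩ : Fin n) ∈ Finset.univ.erase (⟨0, h0⟩ : Fin n) := by
      rw [Finset.mem_erase]
      exact ⟨by simp [Fin.ext_iff], Finset.mem_univ _⟩
    have e : c * ∏ j ∈ Finset.univ.erase (⟨0, h0⟩ : Fin n), q j =
        q ⟨1, h1⟩ * (c * ∏ j ∈ (Finset.univ.erase (⟨0, h0⟩ : Fin n)).erase ⟨1, h1⟩, q j) := by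
      rw [← Finset.mul_prod_erase _ q hmem]
      ring
    rw [e] at k0
    exact hq _ (hone _ _ k0)

end

/-- (AM_IRR). -/
theorem irrK (hRes : ResKS) (hFact : FactS) (hC0 : Coeff0S) (hE1 : E1S) (hMV : MVS) (hMm : MmulS)
    (hM1 : M1S) (hC4 : C4S) (hE2 : E2S) (hU : UnitAS) (hThin : ThinS) (hWWf : WWfS) (hB5a : B5aS)
    (hFD : FDS) (hVco : VcoS) (hEv : EvRS) : IrrKS := by
  classical
  intro O _ _ _ _ P L _ _ _ _ _ phi D S eta θ T K hD h2 hS hV0 hNs hP hT hK hfr
  have hLK : LamS eta S D ≤ K := by rw [hK]; exact le_sup_left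
  have hTK : ∀ a ∈ T, a ∈ K := fun a ha => by
    rw [hK]; exact Submodule.mem_sup_right (Submodule.subset_span ha)
  have hSB : Bin phi S := hD.bin S hS.1
  have hSK : S ∈ K := hLK (Submodule.subset_span (Set.mem_insert _ _))
  have hsu : ∀ a : K, a ∈ supp (res K D) ↔ (a : L) ∈ supp D := fun a => Iff.rfl
  have hV := hVco O P L phi D S eta hD.inj hD.bin hSB hS.2.1
  -- finite index
  have hfin : Finite (L ⧸ K) := K.finiteQuotientOfFreeOfRankEq hfr
  have hidx : ∀ a : L, ∃ n : ℤ, n ≠ 0 ∧ n • a ∈ K := by
    intro a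
    refine ⟨(Nat.card (L ⧸ K) : ℤ), by exact_mod_cast Nat.card_pos.ne', ?_⟩
    have h2 : Nat.card (L ⧸ K) • (Submodule.Quotient.mk a : L ⧸ K) = 0 := card_nsmul_eq_zero'
    have h3 : (Submodule.Quotient.mk (Nat.card (L ⧸ K) • a) : L ⧸ K) = 0 := by
      rw [← h2]
      rfl
    rw [Submodule.Quotient.mk_eq_zero] at h3
    rw [natCast_zsmul]
    exact h3
  obtain ⟨hst, hun⟩ := hRes O P L phi D S eta K hD h2 hS hV0 hLK hidx
  have hinj : Function.Injective (phi.comp (incl K)) := by
    intro a b hab
    exact Subtype.ext (hD.inj hab)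
  have hbin : ∀ a ∈ supp (res K D), Bin (phi.comp (incl K)) a := fun a ha => hD.bin (a : L) ha
  -- the exponents span `K`
  have hspan : Submodule.span ℤ (supp (res K D)) = ⊤ := by
    have h3 : K ≤ (Submodule.span ℤ (supp (res K D))).map K.subtype := by
      have hin : ∀ x : L, x ∈ supp D → x ∈ K →
          x ∈ (Submodule.span ℤ (supp (res K D))).map K.subtype := by
        intro x hx hxK
        exact ⟨⟨x, hxK⟩, Submodule.subset_span hx, rfl⟩
      have hSm := hin S hS.1 hSK
      conv_lhs => rw [hK]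
      refine sup_le ?_ ?_
      · unfold LamS
        rw [Submodule.span_le]
        intro a ha
        rcases ha with ha | ha
        · rw [ha]; exact hSm
        · obtain ⟨k, hk⟩ := hV.2.1 a ha
          have haK : a ∈ K := hLK (Submodule.subset_span (Set.mem_insert_of_mem _ ha))
          have h4 := hin (a + k • S) hk (K.add_mem haK (K.smul_mem _ hSK))
          have h5 := Submodule.sub_mem _ h4 (Submodule.smul_mem _ k hSm)
          rwa [add_sub_cancel_right] at h5
      · rw [Submodule.span_le]
        intro a ha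
        exact hin a (hT ha) (hTK a ha)
    rw [eq_top_iff]
    intro x _
    obtain ⟨y, hy, hxy⟩ := h3 x.2
    have : y = x := Subtype.ext hxy
    rw [← this]
    exact hy
  have hspn : rk (supp (res K D)) = Module.finrank ℤ K := by
    unfold rk
    rw [hspan]
    exact finrank_top ℤ K
  refine ⟨hinj, hbin, hst, hun, ?_, hspn⟩
  -- irreducibility
  obtain ⟨c, n, G, hc0, heq, hG⟩ := hFact O K (res K D) hst hun
  obtain ⟨hW0, lam, hpos, -⟩ := id hst
  have hfull : ∀ i, FullAt lam (G i) := fun i => ((hG i).2.2.2.2 lam).2 hpos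
  have hGpos : ∀ i, Pos lam (G i) := fun i => (hfull i).2.1
  have hG0 : ∀ i, (G i).coeff 0 ≠ 0 := fun i => (hfull i).1
  have key : ∀ s : Finset (Fin n),
      (cst c * ∏ i ∈ s, G i).coeff 0 = c * ∏ i ∈ s, (G i).coeff 0 := by
    intro s
    obtain ⟨e1, p1⟩ := H29.prod_coeff_zero hC0 G lam hGpos s
    rw [(hC0 O _ (cst c) (∏ i ∈ s, G i) lam (H29.pos_cst lam c) p1).1, H29.cst_coeff_zero, e1]
  have hD0 : D.coeff 0 = c * ∏ i, (G i).coeff 0 := by
    rw [← key, ← heq]
    rfl
  have hsplit : ∀ i, res K D = G i * (cst c * ∏ j ∈ Finset.univ.erase i, G j) := by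
    intro i
    rw [heq, ← Finset.mul_prod_erase Finset.univ G (Finset.mem_univ i)]
    ring
  have hnot : ∀ i, M ((G i).coeff 0) ≠ 1 := by
    intro i hM
    have hH0 : (cst c * ∏ j ∈ Finset.univ.erase i, G j).coeff 0 ≠ 0 := by
      rw [key]
      exact mul_ne_zero hc0 (Finset.prod_ne_zero_iff.mpr fun j _ => hG0 j)
    have hWW : ∀ a ∈ supp (G i * (cst c * ∏ j ∈ Finset.univ.erase i, G j)),
        WW (phi.comp (incl K)) ∅ Finset.univ a := by
      intro a ha
      rw [← hsplit i] at ha
      refine ⟨fun j _ => hbin a ha j, Or.inl (fun j hj => absurd hj (Finset.notMem_empty j)),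
        fun j _ hj => absurd (Finset.mem_univ j) hj⟩
    have hGW := (hWWf O P K (phi.comp (incl K)) ∅ Finset.univ (G i) _ hWW (hG0 i) hH0).1
    have hth := hThin P K (phi.comp (incl K)) ∅ Finset.univ (supp (G i)) hinj hGW
    obtain ⟨hu0, b, hb0, hub, hsb⟩ :=
      hC4 O K (G i) (hG i).1 (hG i).2.2.1 (hG i).2.1 hth hM
    have hbs : b ∈ supp (G i) := by rw [hsb]; exact Or.inr rfl
    have hbB : Bin phi (b : L) := fun j => (hGW b hbs).1 j (Finset.mem_univ j)
    exact no_small hFD hMm hEv hE2 hB5a hVco hU phi D S eta hD h2 hS hV0 hNs K hLK (G i) _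
      (hsplit i) b hb0 hbB hsb hu0 hub
  rw [hD0] at hP
  rcases count hE1 hMV c (fun i => (G i).coeff 0) hP hnot with hn | ⟨hn, hMc⟩
  · exfalso
    subst hn
    have h3 : (res K D).coeff ⟨S, hSK⟩ ≠ 0 := hS.1
    apply h3
    rw [heq, Finset.univ_eq_empty, Finset.prod_empty, mul_one, cst, coeff_single,
      Finsupp.single_apply, if_neg]
    intro h4
    exact hS.2.1 (congrArg (fun x : K => (x : L)) h4).symm
  · subst hn
    have hcu : IsUnit c := by
      refine hM1 O c hc0 hMc (fun z hz => ?_)
      apply (hE2 O P L phi D hD h2).1 z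
      rw [hD0, map_mul, hz, zero_mul]
    have hcu2 : IsUnit (cst c : AO O K) :=
      hcu.map (AddMonoidAlgebra.singleZeroRingHom : RO O →+* AO O K)
    rw [heq, Fin.prod_univ_one]
    obtain ⟨w, hw⟩ := hcu2
    rw [← hw]
    exact (irreducible_units_mul w).2 (hG 0).1

end Pool.Agent.B5.H42.Irr
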