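import Pool.Agent.Lib.MP_b5021c_nt.IfaceE6Cr

/-! Board b5, stage 3, chapter E6C, row E6C_ONE (helper42): one closing with a load of type B or C
and drop `g`. -/

namespace Pool.Agent.B5.H42.One

open scoped LaurentPolynomial
open Polynomial
open Pool.Agent.MP_b5021c_nt (nz)

section gen

variable {O : Type} [CommRing O] [Coef O]

-- uniqueness of the normal form, one inequality
omit [Coef O] in
theorem T_eq_le {p q : O[X]} {a b : ℤ} (hp : p.coeff 0 ≠ 0) (hab : a ≤ b)
    (h : (LaurentPolynomial.T a * toLaurent p : RO O) = LaurentPolynomial.T b * toLaurent q) :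
    a = b ∧ p = q := by
  obtain ⟨n, rfl⟩ : ∃ n : ℕ, b = a + n := ⟨(b - a).toNat, by omega⟩
  rw [LaurentPolynomial.T_add, mul_assoc] at h
  have h2 : (toLaurent p : RO O) = LaurentPolynomial.T n * toLaurent q :=
    (LaurentPolynomial.isUnit_T a).mul_left_cancel h
  rw [← toLaurent_X_pow, ← map_mul] at h2
  have h3 : p = X ^ n * q := toLaurent_injective h2
  rcases Nat.eq_zero_or_pos n with hn | hn
  · subst hn
    exact ⟨by simp, by simpa using h3⟩
  · exfalso
    apply hp
    rw [h3, coeff_X_pow_mul', if_neg (by omega)]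

omit [Coef O] in
theorem T_eq {p q : O[X]} {a b : ℤ} (hp : p.coeff 0 ≠ 0) (hq : q.coeff 0 ≠ 0)
    (h : (LaurentPolynomial.T a * toLaurent p : RO O) = LaurentPolynomial.T b * toLaurent q) :
    a = b ∧ p = q := by
  rcases le_total a b with hab | hab
  · exact T_eq_le hp hab h
  · obtain ⟨h1, h2⟩ := T_eq_le hq hab h.symm
    exact ⟨h1.symm, h2.symm⟩

theorem emb_ne {x : O} (h : ‖(Coef.emb x : ℂ)‖ = 1) : x ≠ 0 := by
  rintro rfl
  rw [map_zero, norm_zero] at h
  exact zero_ne_one h

end gen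

/-- Row E6C_ONE. -/
theorem one (hT2o : T2oS) (hInj1 : Inj1S) (hTre : TreS) (hE2 : E2S) (hEv : EvRS) : One6S := by
  intro O _ _ _ _ P L _ _ _ _ _ phi D S i0 eta h θ t g hFP hK hR hθ hcP hGp hB3 hB1 hrk
  have hDD := hFP.dd
  obtain ⟨θ', hθ1, hθt, hcP'⟩ := hGp
  have hθ'1 : 1 < θ' := by linarith
  refine ⟨θ', hθ1, hθt, hθ'1, ?_⟩
  obtain ⟨m, q, f, hq, hf, hq0, -, hf0⟩ := hB3
  have hIm : ImS phi S := (hInj1 O P L phi D hFP S hR).1
  have hrkr : (Module.finrank ℤ L : ℝ) =
      (rk (supp (cl (co phi i0) S h eta D)) : ℝ) + 1 + g := by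
    exact_mod_cast hrk
  rcases hT2o O P L phi D S i0 eta h θ θ' m q f hDD hK hR hIm hcP hq hf hq0 hcP' (by linarith) with
    hα | ⟨hZ, D', b, e, hD', hRb, hD'0, hD'b, hD'e⟩ | ⟨-, -, -, -, -, hB, -⟩
  · -- no big factor
    left
    linarith
  · -- small factor: terminal case
    right; left
    -- `|V| ≤ |D_0|` on the circle
    obtain ⟨-, -, -, -, -, hray⟩ := hE2 O P L phi D' hD' hK
    have hle : ∀ z : Circle, ‖evR z (D.coeff 0 + (eta : RO O) * D.coeff S)‖ ≤
        ‖evR z (D.coeff 0)‖ := by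
      intro z
      have g1 := (hray b hRb).1 z
      have g2 : ‖evR z (D'.coeff b)‖ = ‖evR z ((e : RO O) * D'.coeff b)‖ := by
        rw [map_mul, norm_mul, (hEv O).2.1 _ _ e.isUnit, one_mul]
      rw [g2, hD'b, map_neg, norm_neg, hD'0] at g1
      exact g1
    obtain ⟨m', q', f', hq', hf', hq'0, -, hf'0⟩ := hB1 hle
    have hqn : q.coeff 0 ≠ 0 := emb_ne hq0
    have hq'n : q'.coeff 0 ≠ 0 := emb_ne hq'0
    obtain ⟨hmm, -⟩ := T_eq hqn hq'n (hq.symm.trans hq')
    subst hmm
    have hff : f = f' := by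
      have h2 : (LaurentPolynomial.T m * toLaurent (X * f) : RO O) =
          LaurentPolynomial.T m * toLaurent (X * f') := hf.symm.trans hf'
      have h3 : (toLaurent (X * f) : RO O) = toLaurent (X * f') :=
        (LaurentPolynomial.isUnit_T m).mul_left_cancel h2
      have h4 := toLaurent_injective h3
      exact mul_left_cancel₀ X_ne_zero h4
    rw [← hff] at hf'0
    have hfne : f.coeff 0 ≠ 0 := by
      intro h0
      have h2 := hZ 0 (by simp)
      apply h2
      rw [← coeff_zero_eq_eval_zero, coeff_map, h0, map_zero]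
    have hf1 : ‖(Coef.emb (f.coeff 0) : ℂ)‖ = 1 := le_antisymm hf'0 (Coef.one_le _ hfne)
    apply hTre O P L phi D' b e θ hD' hK hRb (by linarith)
    · rw [hD'0]; exact hcP
    · rw [hD'e, hD'0]
      refine ⟨m, q, -f, hq, ?_, hq0, ?_, ?_⟩
      · rw [hf, map_neg, map_mul (toLaurent) X, toLaurent_X, LaurentPolynomial.T_add]
        ring
      · rw [coeff_neg, map_neg, norm_neg]
        exact hf1
      · intro z hz
        rw [Polynomial.map_neg, eval_neg, neg_ne_zero]
        exact hZ z hz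
  · -- one big factor
    right; right
    intro B hB1' hBd
    have h2 := hB B hB1' hBd
    linarith

end Pool.Agent.B5.H42.One
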